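import Mathlib

set_option autoImplicit false

open Set Metric Pointwise

namespace Pool.Agent.Results.MP_f102ee_gt.ProjectionInvariance

/-- Euclidean space `ℝⁿ`. -/
abbrev Eucl (n : ℕ) : Type := EuclideanSpace ℝ (Fin n)

/-- The class `𝒦ⁿ` of nonempty compact convex subsets of `ℝⁿ`. -/
def compactConvexSets (n : ℕ) : Set (Set (Eucl n)) :=
  {K | K.Nonempty ∧ IsCompact K ∧ Convex ℝ K}

/-- The class `𝒦ⁿ_n` of convex bodies: compact convex sets with nonempty interior. -/
def convexBodies (n : ℕ) : Set (Set (Eucl n)) :=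
  {K | IsCompact K ∧ Convex ℝ K ∧ (interior K).Nonempty}

/-- `K` is `H`-symmetric: its image under the reflection in `H` is `K`. -/
def IsHSymmetric {n : ℕ} (H : Submodule ℝ (Eucl n)) (K : Set (Eucl n)) : Prop :=
  H.reflection '' K = K

/-- `D` is a symmetrization `B → B_H`: it sends each member of the class `B` to an
`H`-symmetric member of `B` (its values outside `B` play no role). -/
def IsSymmetrization {n : ℕ} (H : Submodule ℝ (Eucl n)) (B : Set (Set (Eucl n)))
    (D : Set (Eucl n) → Set (Eucl n)) : Prop :=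
  ∀ K ∈ B, D K ∈ B ∧ IsHSymmetric H (D K)

/-- `D` is monotonic on the class `B`. -/
def IsMonotonic {n : ℕ} (B : Set (Set (Eucl n))) (D : Set (Eucl n) → Set (Eucl n)) : Prop :=
  ∀ K ∈ B, ∀ L ∈ B, K ⊆ L → D K ⊆ D L

/-- The `H`-symmetric spherical cylinder `D_r(x) + s (Bⁿ ∩ H^⊥)`, a pointwise sum, where
`D_r(x)` is the closed ball of `H` with center `x ∈ H` and radius `r`. -/
def sphericalCylinder {n : ℕ} (H : Submodule ℝ (Eucl n)) (x : Eucl n) (r s : ℝ) :
    Set (Eucl n) :=
  {a | a ∈ H ∧ ‖a - x‖ ≤ r} + {b | b ∈ Hᗮ ∧ ‖b‖ ≤ s}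

/-- `D` is invariant on `H`-symmetric spherical cylinders. -/
def InvariantOnSphericalCylinders {n : ℕ} (H : Submodule ℝ (Eucl n))
    (D : Set (Eucl n) → Set (Eucl n)) : Prop :=
  ∀ x ∈ H, ∀ r s : ℝ, 0 < r → 0 < s → D (sphericalCylinder H x r s) = sphericalCylinder H x r s

/-- `D` is projection invariant on `B`: `(D K)|H = K|H` for all `K ∈ B`, where `K|H` is the
orthogonal projection of `K` onto `H`. -/
def ProjectionInvariant {n : ℕ} (H : Submodule ℝ (Eucl n)) (B : Set (Set (Eucl n)))
    (D : Set (Eucl n) → Set (Eucl n)) : Prop :=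
  ∀ K ∈ B, H.starProjection '' (D K) = H.starProjection '' K

section aux

variable {n : ℕ} (H : Submodule ℝ (Eucl n))

lemma cylinder_compact (x : Eucl n) (r s : ℝ) : IsCompact (sphericalCylinder H x r s) := by
  unfold sphericalCylinder
  refine IsCompact.add ?_ ?_
  · have h1 : {a : Eucl n | a ∈ H ∧ ‖a - x‖ ≤ r} = closedBall x r ∩ (H : Set (Eucl n)) := by
      ext a
      simp only [mem_ofPred_eq, mem_inter_iff, mem_closedBall, dist_eq_norm, SetLike.mem_coe]
      tauto
    rw [h1]
    exact (isCompact_closedBall x r).inter_right (Submodule.closed_of_finiteDimensional H)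
  · have h1 : {b : Eucl n | b ∈ Hᗮ ∧ ‖b‖ ≤ s} = closedBall 0 s ∩ (Hᗮ : Set (Eucl n)) := by
      ext a
      simp only [mem_ofPred_eq, mem_inter_iff, mem_closedBall, dist_eq_norm, SetLike.mem_coe,
        sub_zero]
      tauto
    rw [h1]
    exact (isCompact_closedBall 0 s).inter_right (Submodule.closed_of_finiteDimensional Hᗮ)

lemma cylinder_convex (x : Eucl n) (r s : ℝ) : Convex ℝ (sphericalCylinder H x r s) := by
  unfold sphericalCylinder
  refine Convex.add ?_ ?_
  · have h1 : {a : Eucl n | a ∈ H ∧ ‖a - x‖ ≤ r} = closedBall x r ∩ (H : Set (Eucl n)) := by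
      ext a
      simp only [mem_ofPred_eq, mem_inter_iff, mem_closedBall, dist_eq_norm, SetLike.mem_coe]
      tauto
    rw [h1]
    exact (convex_closedBall x r).inter H.convex
  · have h1 : {b : Eucl n | b ∈ Hᗮ ∧ ‖b‖ ≤ s} = closedBall 0 s ∩ (Hᗮ : Set (Eucl n)) := by
      ext a
      simp only [mem_ofPred_eq, mem_inter_iff, mem_closedBall, dist_eq_norm, SetLike.mem_coe,
        sub_zero]
      tauto
    rw [h1]
    exact (convex_closedBall 0 s).inter Hᗮ.convex

/-- A point is in the cylinder as soon as its two components are small. -/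
lemma mem_cylinder {x y : Eucl n} {r s : ℝ} (h1 : ‖H.starProjection y - x‖ ≤ r)
    (h2 : ‖y - H.starProjection y‖ ≤ s) : y ∈ sphericalCylinder H x r s := by
  refine Set.mem_add.2 ⟨H.starProjection y, ⟨H.starProjection_apply_mem y, h1⟩,
    y - H.starProjection y, ⟨H.sub_starProjection_mem_orthogonal y, h2⟩, by abel⟩

lemma proj_of_mem_cylinder {x y : Eucl n} {r s : ℝ} (h : y ∈ sphericalCylinder H x r s) :
    ‖H.starProjection y - x‖ ≤ r := by
  obtain ⟨a, ⟨haH, har⟩, b, ⟨hbH, -⟩, rfl⟩ := Set.mem_add.1 h
  have : H.starProjection (a + b) = a := by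
    rw [map_add, Submodule.starProjection_eq_self_iff.2 haH,
      (Submodule.starProjection_apply_eq_zero_iff H).2 hbH, add_zero]
  rwa [this]

lemma cylinder_interior {x : Eucl n} (hx : x ∈ H) {r s : ℝ} (hr : 0 < r) (hs : 0 < s) :
    (interior (sphericalCylinder H x r s)).Nonempty := by
  refine ⟨x, mem_interior.2 ⟨ball x (min r s), ?_, isOpen_ball, mem_ball_self (lt_min hr hs)⟩⟩
  intro y hy
  rw [mem_ball, dist_eq_norm] at hy
  have hPx : H.starProjection x = x := Submodule.starProjection_eq_self_iff.2 hx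
  have h1 : H.starProjection y - x = H.starProjection (y - x) := by rw [map_sub, hPx]
  have h2 : y - H.starProjection y = (y - x) - H.starProjection (y - x) := by
    rw [map_sub, hPx]; abel
  apply mem_cylinder
  · rw [h1]
    exact (H.norm_starProjection_apply_le _).trans (hy.le.trans (min_le_left _ _))
  · rw [h2, ← Submodule.starProjection_orthogonal_val]
    exact (Hᗮ.norm_starProjection_apply_le _).trans (hy.le.trans (min_le_right _ _))

end aux

section main

variable {n : ℕ} {H : Submodule ℝ (Eucl n)} {B : Set (Set (Eucl n))}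
  {D : Set (Eucl n) → Set (Eucl n)}

lemma B_nonempty (hB : B = compactConvexSets n ∨ B = convexBodies n) {K : Set (Eucl n)}
    (hK : K ∈ B) : K.Nonempty := by
  rcases hB with rfl | rfl
  · exact hK.1
  · exact hK.2.2.mono interior_subset

lemma B_compact (hB : B = compactConvexSets n ∨ B = convexBodies n) {K : Set (Eucl n)}
    (hK : K ∈ B) : IsCompact K := by
  rcases hB with rfl | rfl
  · exact hK.2.1
  · exact hK.1

lemma B_convex (hB : B = compactConvexSets n ∨ B = convexBodies n) {K : Set (Eucl n)}
    (hK : K ∈ B) : Convex ℝ K := by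
  rcases hB with rfl | rfl
  · exact hK.2.2
  · exact hK.2.1

lemma body_mem_B (hB : B = compactConvexSets n ∨ B = convexBodies n) {K : Set (Eucl n)}
    (hK : IsCompact K) (hc : Convex ℝ K) (hi : (interior K).Nonempty) : K ∈ B := by
  rcases hB with rfl | rfl
  · exact ⟨hi.mono interior_subset, hK, hc⟩
  · exact ⟨hK, hc, hi⟩

/-- Upper inclusion: `(D K)|H ⊆ K|H`. -/
lemma proj_subset (hB : B = compactConvexSets n ∨ B = convexBodies n)
    (hmono : IsMonotonic B D) (hcyl : InvariantOnSphericalCylinders H D)
    {K : Set (Eucl n)} (hK : K ∈ B) :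
    H.starProjection '' (D K) ⊆ H.starProjection '' K := by
  rintro _ ⟨d, hd, rfl⟩
  by_contra hq
  set P := H.starProjection with hP
  set q := P d with hqdef
  have hKc := B_compact hB hK
  have hcomp : IsCompact (P '' K) := hKc.image P.continuous
  have hconv : Convex ℝ (P '' K) := (B_convex hB hK).linear_image P.toLinearMap
  obtain ⟨f, u, hfu, huq⟩ := geometric_hahn_banach_closed_point hconv hcomp.isClosed hq
  set w0 := (InnerProductSpace.toDual ℝ (Eucl n)).symm f with hw0
  have hf : ∀ y, f y = inner ℝ w0 y := by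
    intro y
    rw [hw0, InnerProductSpace.toDual_symm_apply]
  set w := P w0 with hw
  have hfw : ∀ y ∈ H, f y = inner ℝ w y := by
    intro y hy
    rw [hf, hw, hP, Submodule.inner_starProjection_left_eq_right,
      Submodule.starProjection_eq_self_iff.2 hy]
  have hqH : q ∈ H := H.starProjection_apply_mem d
  have hwH : w ∈ H := H.starProjection_apply_mem w0
  set δ := f q - u with hδ
  have hδpos : 0 < δ := by rw [hδ]; linarith
  -- bound of the distance
  obtain ⟨M, hM⟩ := (hKc.image P.continuous).isBounded.subset_closedBall q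
  have hMn : ∀ a ∈ P '' K, ‖a - q‖ ≤ M := by
    intro a ha
    have := hM ha
    rwa [mem_closedBall, dist_eq_norm] at this
  have hKne := B_nonempty hB hK
  obtain ⟨k0, hk0⟩ := hKne
  have hM0 : 0 ≤ M := (norm_nonneg _).trans (hMn (P k0) ⟨k0, hk0, rfl⟩)
  have hinner : ∀ a ∈ P '' K, inner ℝ w (a - q) ≤ -δ := by
    rintro a ha
    obtain ⟨k, hk, rfl⟩ := ha
    have h1 := hfu (P k) ⟨k, hk, rfl⟩
    have h2 : inner ℝ w (P k - q) = f (P k) - f q := by
      rw [inner_sub_right, ← hfw _ (H.starProjection_apply_mem k), ← hfw _ hqH]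
    rw [h2, hδ]; linarith
  have hwne : w ≠ 0 := by
    intro h0
    have := hinner (P k0) ⟨k0, hk0, rfl⟩
    rw [h0, inner_zero_left] at this
    linarith
  have hwpos : 0 < ‖w‖ := norm_pos_iff.2 hwne
  -- the big ball
  set t := M ^ 2 / δ + 1 with ht
  have htpos : 0 < t := by positivity
  have htδ : M ^ 2 - 2 * t * δ < 0 := by
    have : t * δ = M ^ 2 + δ := by rw [ht]; field_simp
    nlinarith [sq_nonneg M]
  set c := q - t • w with hc
  have hcH : c ∈ H := H.sub_mem hqH (H.smul_mem t hwH)
  have hsq : ∀ a ∈ P '' K, ‖a - c‖ ^ 2 ≤ (t * ‖w‖) ^ 2 + (M ^ 2 - 2 * t * δ) := by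
    intro a ha
    have h1 : a - c = (a - q) + t • w := by rw [hc]; abel
    have h2 : ‖a - c‖ ^ 2 = ‖a - q‖ ^ 2 + 2 * t * inner ℝ w (a - q) + (t * ‖w‖) ^ 2 := by
      rw [h1, norm_add_sq_real, inner_smul_right, norm_smul, Real.norm_eq_abs,
        abs_of_pos htpos, real_inner_comm]
      ring
    have h3 : ‖a - q‖ ^ 2 ≤ M ^ 2 := by
      have := hMn a ha
      have h0 := norm_nonneg (a - q)
      nlinarith
    have h4 := hinner a ha
    rw [h2]
    nlinarith
  set ρ := Real.sqrt (max 0 ((t * ‖w‖) ^ 2 + (M ^ 2 - 2 * t * δ))) with hρ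
  have hρlt : ρ < t * ‖w‖ := by
    rw [hρ, Real.sqrt_lt' (by positivity)]
    apply max_lt
    · positivity
    · linarith
  have hρ0 : 0 ≤ ρ := Real.sqrt_nonneg _
  set r := (ρ + t * ‖w‖) / 2 with hr
  have hrpos : 0 < r := by
    have : 0 < t * ‖w‖ := by positivity
    rw [hr]; linarith
  have hρr : ρ ≤ r := by rw [hr]; linarith
  have hrlt : r < t * ‖w‖ := by rw [hr]; linarith
  have hball : ∀ a ∈ P '' K, ‖a - c‖ ≤ r := by
    intro a ha
    refine le_trans ?_ hρr
    rw [hρ]
    apply Real.le_sqrt_of_sq_le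
    exact (hsq a ha).trans (le_max_right _ _)
  -- the height of the cylinder
  obtain ⟨s0, hs0⟩ := hKc.isBounded.subset_closedBall (0 : Eucl n)
  set s := max s0 1 with hs
  have hspos : 0 < s := lt_of_lt_of_le one_pos (le_max_right _ _)
  have hKcyl : K ⊆ sphericalCylinder H c r s := by
    intro k hk
    apply mem_cylinder
    · exact hball (P k) ⟨k, hk, rfl⟩
    · rw [← Submodule.starProjection_orthogonal_val]
      refine (Hᗮ.norm_starProjection_apply_le _).trans ?_
      have := hs0 hk
      rw [mem_closedBall, dist_zero_right] at this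
      exact this.trans (le_max_left _ _)
  have hCB : sphericalCylinder H c r s ∈ B :=
    body_mem_B hB (cylinder_compact H c r s) (cylinder_convex H c r s)
      (cylinder_interior H hcH hrpos hspos)
  have hDC := hmono K hK _ hCB hKcyl
  rw [hcyl c hcH r s hrpos hspos] at hDC
  have h5 := proj_of_mem_cylinder H (hDC hd)
  have h6 : P d - c = t • w := by rw [hc, hqdef]; abel
  rw [h6, norm_smul, Real.norm_eq_abs, abs_of_pos htpos] at h5
  linarith

/-- Every monotonic symmetrization `B → B_H`, where `B` is `𝒦ⁿ` or `𝒦ⁿ_n` and `H` is any linear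
subspace of `ℝⁿ`, that is invariant on `H`-symmetric spherical cylinders is projection
invariant. -/
theorem result (n : ℕ) (H : Submodule ℝ (Eucl n)) (B : Set (Set (Eucl n)))
    (hB : B = compactConvexSets n ∨ B = convexBodies n)
    (D : Set (Eucl n) → Set (Eucl n)) (hD : IsSymmetrization H B D)
    (hmono : IsMonotonic B D) (hcyl : InvariantOnSphericalCylinders H D) :
    ProjectionInvariant H B D := by
  intro K hK
  apply Subset.antisymm (proj_subset hB hmono hcyl hK)
  have hclosed : IsClosed (H.starProjection '' (D K)) :=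
    ((B_compact hB (hD K hK).1).image H.starProjection.continuous).isClosed
  rcases hB with hB' | hB'
  · rintro _ ⟨p, hp, rfl⟩
    have hB : B = compactConvexSets n ∨ B = convexBodies n := Or.inl hB'
    have hpB : ({p} : Set (Eucl n)) ∈ B := by
      rw [hB']
      exact ⟨singleton_nonempty p, isCompact_singleton, convex_singleton p⟩
    obtain ⟨d, hd⟩ := B_nonempty hB (hD _ hpB).1
    have h1 : H.starProjection d ∈ H.starProjection '' {p} :=
      proj_subset hB hmono hcyl hpB ⟨d, hd, rfl⟩
    rw [image_singleton, mem_singleton_iff] at h1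
    refine ⟨d, hmono _ hpB K hK (singleton_subset_iff.2 hp) hd, h1⟩
  · have hB : B = compactConvexSets n ∨ B = convexBodies n := Or.inr hB'
    have hKi : (interior K).Nonempty := by
      rw [hB'] at hK
      exact hK.2.2
    -- interior points
    have hint : ∀ p ∈ interior K, H.starProjection p ∈ H.starProjection '' (D K) := by
      intro p hp
      rw [← hclosed.closure_eq, Metric.mem_closure_iff]
      intro ε hε
      obtain ⟨η, hη, hηK⟩ := Metric.isOpen_iff.1 isOpen_interior p hp
      set ζ := min (η / 2) (ε / 2) with hζ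
      have hζpos : 0 < ζ := lt_min (by linarith) (by linarith)
      have hsub : closedBall p ζ ⊆ K := by
        refine (closedBall_subset_ball ?_).trans (hηK.trans interior_subset)
        have := min_le_left (η / 2) (ε / 2)
        linarith
      have hbB : closedBall p ζ ∈ B := by
        refine body_mem_B hB (isCompact_closedBall p ζ) (convex_closedBall p ζ) ?_
        exact ⟨p, ball_subset_interior_closedBall (mem_ball_self hζpos)⟩
      obtain ⟨d, hd⟩ := B_nonempty hB (hD _ hbB).1
      obtain ⟨p', hp', hpe⟩ := proj_subset hB hmono hcyl hbB ⟨d, hd, rfl⟩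
      refine ⟨H.starProjection d, ⟨d, hmono _ hbB K hK hsub hd, rfl⟩, ?_⟩
      rw [← hpe, dist_eq_norm, ← map_sub]
      refine lt_of_le_of_lt (H.norm_starProjection_apply_le _) ?_
      rw [mem_closedBall, dist_comm, dist_eq_norm] at hp'
      have := min_le_right (η / 2) (ε / 2)
      linarith
    have hcl : closure (interior K) = closure K :=
      (B_convex hB hK).closure_interior_eq_closure_of_nonempty_interior hKi
    have h2 : K ⊆ closure (interior K) := by
      rw [hcl]; exact subset_closure
    rintro _ ⟨p, hp, rfl⟩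
    have h3 : H.starProjection p ∈ closure (H.starProjection '' (interior K)) :=
      image_closure_subset_closure_image H.starProjection.continuous ⟨p, h2 hp, rfl⟩
    have h4 : closure (H.starProjection '' (interior K)) ⊆ H.starProjection '' (D K) := by
      apply closure_minimal _ hclosed
      rintro _ ⟨y, hy, rfl⟩
      exact hint y hy
    exact h4 h3

end main

end Pool.Agent.Results.MP_f102ee_gt.ProjectionInvariance
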